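import Mathlib
import Pool.Agent.Helper379.Div3

set_option autoImplicit false

/-!
Arithmetic: large prime power divisors; sets of integers that contain almost all multiples of
many primes.
-/

namespace Pool.Agent.W5h82.Ev

open Finset Filter

theorem exists_primePow_dvd (m : ℕ) :
    ∃ n₀ : ℕ, ∀ n : ℕ, n₀ ≤ n → ∃ p c : ℕ, p.Prime ∧ 1 ≤ c ∧ m ≤ p ^ c ∧ p ^ c ∣ n := by
  refine ⟨(m + 1) ^ (m + 1) + 1, fun n hn => ?_⟩
  by_contra hcon
  push Not at hcon
  have hn0 : n ≠ 0 := by omega
  have h1 : ∀ p ∈ n.primeFactors, p ^ n.factorization p ≤ m := by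
    intro p hp
    by_contra h
    push Not at h
    have hpp := Nat.prime_of_mem_primeFactors hp
    have hv : 1 ≤ n.factorization p := by
      have := Nat.support_factorization n
      rw [← this, Finsupp.mem_support_iff] at hp
      omega
    exact hcon p _ hpp hv h.le (Nat.ordProj_dvd n p)
  have h2 : n.primeFactors ⊆ range (m + 1) := by
    intro p hp
    rw [mem_range]
    have hv : 1 ≤ n.factorization p := by
      have := Nat.support_factorization n
      rw [← this, Finsupp.mem_support_iff] at hp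
      omega
    have h3 := h1 p hp
    have hpp := Nat.prime_of_mem_primeFactors hp
    have h4 : p ^ 1 ≤ p ^ n.factorization p := Nat.pow_le_pow_right hpp.pos hv
    rw [pow_one] at h4
    omega
  have h3 : n ≤ (m + 1) ^ (m + 1) := by
    calc n = ∏ p ∈ n.primeFactors, p ^ n.factorization p :=
          Nat.prod_primeFactors_pow_factorization hn0
      _ ≤ ∏ _p ∈ n.primeFactors, (m + 1) :=
          Finset.prod_le_prod' fun p hp => (h1 p hp).trans (Nat.le_succ m)
      _ = (m + 1) ^ n.primeFactors.card := by rw [prod_const]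
      _ ≤ (m + 1) ^ (m + 1) := by
          apply Nat.pow_le_pow_right (Nat.succ_pos m)
          have := card_le_card h2
          rwa [card_range] at this
  omega

open Classical in
/-- the upper bound for the number of integers without a divisor in a finite set of primes -/
theorem count_coprime (S : Finset ℕ) (hS : ∀ p ∈ S, p.Prime) (N : ℕ) :
    (((range N).filter (fun n => ∀ p ∈ S, ¬ p ∣ n)).card : ℝ) ≤
      N * Real.exp (-∑ p ∈ S, (1 : ℝ) / p) + ∏ p ∈ S, p := by
  set D := ∏ p ∈ S, p with hD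
  have hD0 : D ≠ 0 := Finset.prod_ne_zero_iff.2 fun p hp => (hS p hp).ne_zero
  have hDpos : (0 : ℝ) < D := by exact_mod_cast Nat.pos_of_ne_zero hD0
  have hpf : D.primeFactors = S := by
    rw [hD]
    exact Nat.primeFactors_prod hS
  have h1 : (range N).filter (fun n => ∀ p ∈ S, ¬ p ∣ n) ⊆
      (Ico 0 (0 + N)).filter (fun x => D.Coprime x) := by
    intro n hn
    rw [mem_filter, mem_range] at hn
    rw [mem_filter, mem_Ico]
    refine ⟨⟨Nat.zero_le _, by omega⟩, ?_⟩
    rw [hD, Nat.coprime_prod_left_iff]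
    intro p hp
    exact ((hS p hp).coprime_iff_not_dvd).2 (hn.2 p hp)
  have h2 := (card_le_card h1).trans (Nat.Ico_filter_coprime_le 0 N hD0)
  have h3 : ((D.totient : ℝ)) = D * ∏ p ∈ S, (1 - (p : ℝ)⁻¹) := by
    have h4 := Nat.totient_eq_mul_prod_factors D
    rw [hpf] at h4
    have h5 := congrArg (fun x : ℚ => (x : ℝ)) h4
    simpa using h5
  have h4 : ∏ p ∈ S, (1 - (p : ℝ)⁻¹) ≤ Real.exp (-∑ p ∈ S, (1 : ℝ) / p) := by
    rw [← Finset.sum_neg_distrib, Real.exp_sum]
    refine Finset.prod_le_prod (fun p hp => ?_) fun p hp => ?_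
    · have h5 : (1 : ℝ) ≤ p := by exact_mod_cast (hS p hp).one_le
      have h6 : (p : ℝ)⁻¹ ≤ 1 := inv_le_one_of_one_le₀ h5
      linarith
    · have := Real.add_one_le_exp (-(1 / (p : ℝ)))
      rw [one_div] at this ⊢
      linarith
  have h5 : (((range N).filter (fun n => ∀ p ∈ S, ¬ p ∣ n)).card : ℝ) ≤
      D.totient * ((N / D : ℕ) + 1) := by exact_mod_cast h2
  have h6 : ((N / D : ℕ) : ℝ) ≤ (N : ℝ) / D := Nat.cast_div_le
  have h7 : (D.totient : ℝ) ≤ D := by exact_mod_cast Nat.totient_le D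
  have h8 : (0 : ℝ) ≤ D.totient := Nat.cast_nonneg _
  calc (((range N).filter (fun n => ∀ p ∈ S, ¬ p ∣ n)).card : ℝ)
      ≤ D.totient * ((N / D : ℕ) + 1) := h5
    _ ≤ D.totient * ((N : ℝ) / D) + D := by nlinarith
    _ = N * ∏ p ∈ S, (1 - (p : ℝ)⁻¹) + D := by
        rw [h3]
        field_simp
    _ ≤ _ := by
        have h9 : (0 : ℝ) ≤ N := Nat.cast_nonneg _
        have := mul_le_mul_of_nonneg_left h4 h9
        linarith

open Classical in
/-- a set which contains only finitely many multiples of `p` for every large prime `p` in a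
residue class has density zero -/
theorem density_zero (T a m : ℕ) (hT : 1 ≤ T) (ha : Nat.Coprime a T) (A : ℕ → Prop)
    (hA : ∀ p : ℕ, p.Prime → m ≤ p → p ≡ a [MOD T] → ∃ n₀ : ℕ, ∀ n : ℕ, n₀ ≤ n → p ∣ n → ¬ A n) :
    Tendsto (fun N : ℕ => (((range N).filter A).card : ℝ) / N) atTop (nhds 0) := by
  have hNe : NeZero T := ⟨by omega⟩
  rw [Metric.tendsto_atTop]
  intro ε hε
  -- enough primes
  have hu : IsUnit ((a : ℕ) : ZMod T) := (ZMod.isUnit_iff_coprime a T).2 ha
  have hdiv := Pool.Agent.Helper379.Div3.not_summable_inv_primes_mod (q := T) hu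
  have hdiv' := (not_summable_iff_tendsto_nat_atTop_of_nonneg (f := fun n : ℕ =>
    if n.Prime ∧ (n : ZMod T) = (a : ZMod T) then (1 : ℝ) / n else 0) (fun n => by
      split_ifs <;> positivity)).1 hdiv
  obtain ⟨w, hw⟩ := (hdiv'.eventually_ge_atTop (m + Real.log (4 / ε))).exists
  set S : Finset ℕ :=
    (range w).filter (fun p : ℕ => p.Prime ∧ (p : ZMod T) = (a : ZMod T) ∧ m ≤ p) with hS
  have hSp : ∀ p ∈ S, p.Prime := fun p hp => ((mem_filter.1 hp).2).1
  have hSsum : Real.log (4 / ε) ≤ ∑ p ∈ S, (1 : ℝ) / p := by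
    have h1 : ∑ i ∈ range w, (if i.Prime ∧ (i : ZMod T) = (a : ZMod T) then (1 : ℝ) / i else 0) ≤
        ∑ p ∈ S, (1 : ℝ) / p + m := by
      rw [← Finset.sum_filter]
      have hsub : (range w).filter (fun i : ℕ => i.Prime ∧ (i : ZMod T) = (a : ZMod T)) ⊆
          S ∪ (range m) := by
        intro i hi
        rw [mem_filter] at hi
        rw [mem_union]
        by_cases him : m ≤ i
        · left
          rw [hS, mem_filter]
          exact ⟨hi.1, hi.2.1, hi.2.2, him⟩
        · right
          rw [mem_range]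
          omega
      calc ∑ i ∈ (range w).filter (fun i : ℕ => i.Prime ∧ (i : ZMod T) = (a : ZMod T)), (1 : ℝ) / i
          ≤ ∑ i ∈ S ∪ range m, (1 : ℝ) / i :=
            Finset.sum_le_sum_of_subset_of_nonneg hsub (fun n _ _ => by positivity)
        _ ≤ ∑ i ∈ S, (1 : ℝ) / i + ∑ i ∈ range m, (1 : ℝ) / i := by
            have h2 := Finset.sum_union_inter (s₁ := S) (s₂ := range m)
              (f := fun i : ℕ => (1 : ℝ) / i)
            have h3 : 0 ≤ ∑ i ∈ S ∩ range m, (1 : ℝ) / i :=
              Finset.sum_nonneg fun n _ => by positivity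
            linarith
        _ ≤ ∑ i ∈ S, (1 : ℝ) / i + m := by
            have h2 : ∑ i ∈ range m, (1 : ℝ) / i ≤ ∑ _i ∈ range m, (1 : ℝ) := by
              refine Finset.sum_le_sum fun i _ => ?_
              rcases Nat.eq_zero_or_pos i with rfl | hi
              · simp
              · rw [div_le_one (by exact_mod_cast hi)]
                exact_mod_cast hi
            rw [sum_const, card_range, nsmul_eq_mul, mul_one] at h2
            linarith
    linarith
  have hexp : Real.exp (-∑ p ∈ S, (1 : ℝ) / p) ≤ ε / 4 := by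
    calc Real.exp (-∑ p ∈ S, (1 : ℝ) / p) ≤ Real.exp (-Real.log (4 / ε)) :=
          Real.exp_le_exp.2 (neg_le_neg hSsum)
      _ = ε / 4 := by
          rw [Real.exp_neg, Real.exp_log (by positivity), inv_div]
  -- a common bound
  have hb : ∀ p ∈ S, ∃ n₀ : ℕ, ∀ n : ℕ, n₀ ≤ n → p ∣ n → ¬ A n := by
    intro p hp
    obtain ⟨_, h1, h2, h3⟩ := mem_filter.1 hp
    exact hA p h1 h3 ((ZMod.natCast_eq_natCast_iff _ _ _).1 h2)
  choose! f hf using hb
  set n₁ := ∑ p ∈ S, f p with hn₁
  have hn₁' : ∀ p ∈ S, f p ≤ n₁ := fun p hp =>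
    Finset.single_le_sum (f := f) (fun _ _ => Nat.zero_le _) hp
  set D := ∏ p ∈ S, p with hD
  obtain ⟨N₀, hN₀⟩ := exists_nat_gt (4 * ((n₁ : ℝ) + D) / ε)
  refine ⟨N₀ + 1, fun N hN => ?_⟩
  have hNpos : (0 : ℝ) < N := by exact_mod_cast (show 0 < N by omega)
  have hcard : (((range N).filter A).card : ℝ) ≤ n₁ + (N * (ε / 4) + D) := by
    have hsub : (range N).filter A ⊆
        range n₁ ∪ (range N).filter (fun n => ∀ p ∈ S, ¬ p ∣ n) := by
      intro n hn
      rw [mem_filter] at hn
      rw [mem_union]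
      by_cases h1 : n < n₁
      · exact Or.inl (mem_range.2 h1)
      · right
        rw [mem_filter]
        refine ⟨hn.1, fun p hp hpn => ?_⟩
        exact hf p hp n ((hn₁' p hp).trans (not_lt.1 h1)) hpn hn.2
    have h1 := (card_le_card hsub).trans (card_union_le _ _)
    rw [card_range] at h1
    have h2 := count_coprime S hSp N
    have h3 : (((range N).filter A).card : ℝ) ≤
        n₁ + ((range N).filter (fun n => ∀ p ∈ S, ¬ p ∣ n)).card := by exact_mod_cast h1
    have h4 : (N : ℝ) * Real.exp (-∑ p ∈ S, (1 : ℝ) / p) ≤ N * (ε / 4) :=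
      mul_le_mul_of_nonneg_left hexp hNpos.le
    push_cast at h2
    have h5 : ((D : ℕ) : ℝ) = ∏ p ∈ S, (p : ℝ) := by rw [hD]; push_cast; rfl
    rw [h5]
    linarith
  rw [Real.dist_eq, sub_zero, abs_of_nonneg (by positivity), div_lt_iff₀ hNpos]
  have h6 : 4 * ((n₁ : ℝ) + D) / ε < N := hN₀.trans (by exact_mod_cast (show N₀ < N by omega))
  rw [div_lt_iff₀ hε] at h6
  nlinarith

end Pool.Agent.W5h82.Ev
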