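import Mathlib
import Pool.Agent.W5h82.Ev.Crit
import Pool.Agent.TH410.KV.CubNum

set_option autoImplicit false
set_option linter.unusedSectionVars false

/-!
The signed number of graphs without a homomorphic image of a member, and the contradiction.
-/

namespace Pool.Agent.W5h82.Ev

open Finset Pool.Agent.H98R2.Ev Pool.Agent.TH410.KV

variable {𝓕 : Pool.Agent.TH410.KV.Fam}

theorem bad_xi {W : Type} (H : SimpleGraph W) :
    Bad (fun _ : W => (xi : TY 𝓕)) H ↔ ∃ F ∈ 𝓕, Nonempty (F.2 →g H) := by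
  classical
  constructor
  · rintro ⟨F, κ, h1, h2⟩
    refine ⟨F.1, F.2, ⟨⟨κ, fun {x y} hxy => h2 x y hxy fun heq => ?_⟩⟩⟩
    have h3 : univ.filter (fun x => κ x = κ y) ∈ (xi : TY 𝓕).1 F := by
      convert h1 (κ y)
    exact h3 x (by simp [heq]) y (by simp) hxy
  · rintro ⟨F, hF, ⟨f⟩⟩
    refine ⟨⟨F, hF⟩, f, fun v => ?_, fun x y hxy _ => f.map_adj hxy⟩
    intro x hx y hy hxy
    rw [mem_filter] at hx hy
    have h1 := f.map_adj hxy
    rw [hx.2, hy.2] at h1
    exact H.irrefl h1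

open Classical in
theorem count_xi (q : ℕ) [Fact q.Prime] {W : Type} [Fintype W] [DecidableEq W]
    (Q : Finset (EV W) → Prop) (hQ : ∀ A, Q A ↔ ∃ F ∈ 𝓕, Nonempty (F.2 →g toG A)) :
    ((∑ A : Finset (EV W), (if ¬ Q A then (-1 : ℤ) ^ A.card else 0) : ℤ) : ZMod q) =
      Lb 𝓕 q (cl q (xi : TY 𝓕) ^ Fintype.card W) := by
  have h1 : cl q (xi : TY 𝓕) ^ Fintype.card W = ∏ _v : W, cl q (xi : TY 𝓕) := by
    rw [prod_const, card_univ]
  rw [h1, Lb_prod, Int.cast_sum]
  unfold NN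
  refine Fintype.sum_congr _ _ fun A => ?_
  unfold ind
  have h2 := (bad_xi (𝓕 := 𝓕) (toG A)).trans (hQ A).symm
  by_cases h : Q A
  · rw [if_neg (not_not.2 h), if_pos (h2.2 h), zero_mul, Int.cast_zero]
  · rw [if_pos h, if_neg (fun h3 => h (h2.1 h3)), one_mul]
    push_cast
    rfl

/-- the value of the functional at the powers `1` modulo the period -/
theorem Lb_xi_pow (q : ℕ) [Fact q.Prime] (hq : q = 2 ∨ q = 3) (h0 : ∀ F : 𝓕, ¬ F.1.2.Colorable 1)
    (F₀ : 𝓕) (j e : ℕ) (hF₀ : F₀.1.2.Colorable (q ^ j)) (hj : j ≤ q ^ e) (t : ℕ) (ht : 1 ≤ t)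
    (hmod : t ≡ 1 [MOD (q ^ (q ^ e) - 1)]) :
    Lb 𝓕 q (cl q (xi : TY 𝓕) ^ t) = 1 := by
  have hqp : q.Prime := Fact.out
  have hneq : NeZero q := ⟨hqp.ne_zero⟩
  have hX : ∀ H : 𝓕, univ ∉ (xi : TY 𝓕).1 H := by
    intro H hH
    have h2 : univ ∈ ((J q)^[0] (xi : TY 𝓕)).1 H := hH
    rw [xi_iter, pow_zero] at h2
    exact h0 H h2
  have hnt : Nontrivial (AA 𝓕 q) := nontrivial_AA q _ hX
  have hch : CharP (AA 𝓕 q) q := charP_AA q
  have hDe : (De q ^ j) (cl q (xi : TY 𝓕)) = 0 := by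
    rw [De_cl q hq]
    exact cl_zero q _ F₀ ((xi_iter q j F₀).2 hF₀)
  have hper := pow_period q hDe hj
  rw [pow_eq_self (Nat.one_le_pow _ _ hqp.pos) hper t ht hmod, Lb_cl q _ hX]

theorem toG_univ {V : Type} [DecidableEq V] [Fintype V] :
    toG (univ : Finset (EV V)) = (⊤ : SimpleGraph V) := by
  ext a b
  rw [Pool.Agent.TH410.KV.toG_adj, SimpleGraph.top_adj]
  constructor
  · rintro ⟨h, _⟩ hab
    exact h (Sym2.mk_isDiag_iff.2 hab)
  · intro h
    exact ⟨fun hd => h (Sym2.mk_isDiag_iff.1 hd), mem_univ _⟩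

/-- a graph on `k` vertices with a missing edge is `(k - 1)`-colourable -/
theorem colorable_of_ne_univ {k : ℕ} (S : Finset (EV (Fin (k + 1)))) (hS : S ≠ univ) :
    (toG S).Colorable k := by
  classical
  obtain ⟨⟨e, he⟩, hnot⟩ : ∃ e, e ∉ S := by
    by_contra h
    push Not at h
    exact hS (eq_univ_of_forall h)
  induction e using Sym2.ind with
  | _ a b =>
    have hab : a ≠ b := fun h => he (Sym2.mk_isDiag_iff.2 h)
    have hadj : ¬ (toG S).Adj a b := by
      rw [Pool.Agent.TH410.KV.toG_adj]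
      rintro ⟨_, h⟩
      exact hnot h
    -- identify `b` with `a`
    have hcard : Fintype.card {x : Fin (k + 1) // x ≠ b} = k := by
      rw [Fintype.card_subtype_compl, Fintype.card_fin, Fintype.card_subtype_eq]
      omega
    let E : {x : Fin (k + 1) // x ≠ b} ≃ Fin k := Fintype.equivFinOfCardEq hcard
    refine ⟨SimpleGraph.Coloring.mk
      (fun x => if h : x = b then E ⟨a, hab⟩ else E ⟨x, h⟩) ?_⟩
    intro x y hxy heq
    by_cases hx : x = b
    · by_cases hy : y = b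
      · exact hxy.ne (hx.trans hy.symm)
      · rw [dif_pos hx, dif_neg hy] at heq
        have h1 := congrArg Subtype.val (E.injective heq)
        simp only at h1
        subst h1
        subst hx
        exact hadj hxy.symm
    · by_cases hy : y = b
      · rw [dif_neg hx, dif_pos hy] at heq
        have h1 := congrArg Subtype.val (E.injective heq)
        simp only at h1
        subst h1
        subst hy
        exact hadj hxy
      · rw [dif_neg hx, dif_neg hy] at heq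
        have h1 := congrArg Subtype.val (E.injective heq)
        exact hxy.ne h1

/-- the value of the functional at `xi ^ (k + 1)` when `k + 1` is the least chromatic number of a
member -/
theorem Lb_xi_chrom (q : ℕ) [Fact q.Prime] (k : ℕ) (hk : 1 ≤ k)
    (F₀ : 𝓕) (hF₀ : F₀.1.2.Colorable (k + 1)) (h0 : ∀ F : 𝓕, ¬ F.1.2.Colorable k) :
    Lb 𝓕 q (cl q (xi : TY 𝓕) ^ (k + 1)) ≠ 0 := by
  classical
  have h1 : cl q (xi : TY 𝓕) ^ (k + 1) = ∏ _v : Fin (k + 1), cl q (xi : TY 𝓕) := by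
    rw [prod_const, card_univ, Fintype.card_fin]
  rw [h1, Lb_prod]
  unfold NN
  have hbad : ∀ S : Finset (EV (Fin (k + 1))),
      Bad (fun _ : Fin (k + 1) => (xi : TY 𝓕)) (toG S) ↔ S = univ := by
    intro S
    rw [bad_xi]
    constructor
    · rintro ⟨F, hF, ⟨f⟩⟩
      by_contra hS
      exact h0 ⟨F, hF⟩ ((colorable_of_ne_univ S hS).of_hom f)
    · rintro rfl
      refine ⟨F₀.1, F₀.2, ?_⟩
      rw [toG_univ]
      exact hF₀
  have h2 : ∀ S : Finset (EV (Fin (k + 1))),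
      ind q (fun _ : Fin (k + 1) => (xi : TY 𝓕)) (toG S) * (-1) ^ S.card =
        (-1) ^ S.card - (if S = univ then (-1) ^ S.card else 0) := by
    intro S
    unfold ind
    by_cases hS : S = univ
    · rw [if_pos ((hbad S).2 hS), if_pos hS, zero_mul, sub_self]
    · rw [if_neg (fun h => hS ((hbad S).1 h)), if_neg hS, one_mul, sub_zero]
  rw [Finset.sum_congr rfl (fun S _ => h2 S), Finset.sum_sub_distrib, Finset.sum_ite_eq' univ]
  have hne : (univ : Finset (EV (Fin (k + 1)))).Nonempty := by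
    refine ⟨⟨s(0, Fin.last k), fun h => ?_⟩, mem_univ _⟩
    have h3 := congrArg Fin.val (Sym2.mk_isDiag_iff.1 h)
    rw [Fin.val_zero, Fin.val_last] at h3
    omega
  have h3 : ∑ S : Finset (EV (Fin (k + 1))), (-1 : ZMod q) ^ S.card = 0 := by
    have h4 := Finset.sum_powerset_neg_one_pow_card_of_nonempty hne
    have h5 := congrArg (fun z : ℤ => (z : ZMod q)) h4
    rw [← Finset.powerset_univ]
    push_cast at h5
    exact h5
  rw [h3, if_pos (mem_univ _), zero_sub, neg_ne_zero]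
  have hq1 : Nontrivial (ZMod q) := ZMod.nontrivial_iff.2 (Fact.out : q.Prime).ne_one
  have hu : IsUnit ((-1 : ZMod q) ^ (univ : Finset (EV (Fin (k + 1)))).card) :=
    (isUnit_one.neg).pow _
  exact hu.ne_zero

/-- the powers `k + 1` modulo the period -/
theorem Lb_xi_chrom_pow (q : ℕ) [Fact q.Prime] (hq : q = 2 ∨ q = 3) (k : ℕ) (hk : 1 ≤ k)
    (F₀ : 𝓕) (hF₀ : F₀.1.2.Colorable (k + 1)) (h0 : ∀ F : 𝓕, ¬ F.1.2.Colorable k)
    (j e : ℕ) (hj : j ≤ q ^ e) (hkj : k + 1 ≤ q ^ j) (i : ℕ) :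
    Lb 𝓕 q (cl q (xi : TY 𝓕) ^ (k + 1 + i * (q ^ (q ^ e) - 1))) ≠ 0 := by
  have hqp : q.Prime := Fact.out
  have hneq : NeZero q := ⟨hqp.ne_zero⟩
  have hX : ∀ H : 𝓕, univ ∉ (xi : TY 𝓕).1 H := by
    intro H hH
    have h2 : univ ∈ ((J q)^[0] (xi : TY 𝓕)).1 H := hH
    rw [xi_iter, pow_zero] at h2
    exact h0 H (h2.mono hk)
  have hnt : Nontrivial (AA 𝓕 q) := nontrivial_AA q _ hX
  have hch : CharP (AA 𝓕 q) q := charP_AA q
  have hDe : (De q ^ j) (cl q (xi : TY 𝓕)) = 0 := by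
    rw [De_cl q hq]
    exact cl_zero q _ F₀ ((xi_iter q j F₀).2 (hF₀.mono hkj))
  have hper := pow_period q hDe hj
  rw [pow_add_period (Nat.one_le_pow _ _ hqp.pos) hper (k + 1) (by omega) i]
  exact Lb_xi_chrom q k hk F₀ hF₀ h0

/-- a family is stable at `b`: members in large blow-ups give members in `b`-fold blow-ups -/
def StableAt (𝓕 : Pool.Agent.TH410.KV.Fam) (b : ℕ) : Prop :=
  ∀ (m N : ℕ) (Γ : SimpleGraph (Fin m)), Pool.Agent.H98R2.Nb.Has 𝓕 (Pool.Agent.H98R2.Nb.blow Γ N) →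
    Pool.Agent.H98R2.Nb.Has 𝓕 (Pool.Agent.H98R2.Nb.blow Γ b)

theorem has_mono {V W : Type} {G : SimpleGraph V} {H : SimpleGraph W}
    (h : Pool.Agent.H98R2.Nb.Has 𝓕 G) (hGH : G.IsContained H) : Pool.Agent.H98R2.Nb.Has 𝓕 H := by
  obtain ⟨F, hF, hFG⟩ := h
  exact ⟨F, hF, hFG.trans hGH⟩

/-- a homomorphic image in the graph of blocks gives a member -/
theorem has_of_hom {b : ℕ} (hst : StableAt 𝓕 b) {W V : Type} [Fintype W] (Γ : SimpleGraph W)
    (β : V → W) (f : W × Fin b → V) (hf : Function.Injective f) (hβ : ∀ z, β (f z) = z.1)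
    (F : Σ k : ℕ, SimpleGraph (Fin k)) (hF : F ∈ 𝓕) (κ : F.2 →g Γ) :
    Pool.Agent.H98R2.Nb.Has 𝓕 (Γ.comap β) := by
  classical
  let E : W ≃ Fin (Fintype.card W) := Fintype.equivFin W
  let Γ' : SimpleGraph (Fin (Fintype.card W)) := Γ.comap E.symm
  have h1 : Pool.Agent.H98R2.Nb.Has 𝓕 (Pool.Agent.H98R2.Nb.blow Γ' F.1) := by
    refine ⟨F, hF, ⟨⟨⟨fun x => (E (κ x), x), fun {x y} hxy => ?_⟩, ?_⟩⟩⟩
    · simp only [SimpleGraph.comap_adj, Γ', Equiv.symm_apply_apply]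
      exact κ.map_adj hxy
    · intro x y hxy
      exact (Prod.ext_iff.1 hxy).2
  have h2 := hst _ _ Γ' h1
  refine has_mono h2 ⟨⟨⟨fun z => f (E.symm z.1, z.2), fun {x y} hxy => ?_⟩, ?_⟩⟩
  · simp only [SimpleGraph.comap_adj, Γ'] at hxy ⊢
    rw [hβ, hβ]
    exact hxy
  · intro x y hxy
    have h3 := hf hxy
    rw [Prod.mk.injEq] at h3
    exact Prod.ext (E.symm.injective h3.1) h3.2

/-- **the contradiction for one number of vertices** -/
theorem no_ne {p q : ℕ} [Fact p.Prime] [Fact q.Prime]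
    (h0 : ∀ F : 𝓕, ¬ F.1.2.Colorable 1) {b : ℕ} (hst : StableAt 𝓕 b)
    (c : ℕ) (hc : 1 ≤ c) (hbc : b ≤ p ^ c) (F₁ : 𝓕) (hF₁ : F₁.1.1 ≤ p ^ c) (M M₂ r : ℕ)
    (hM₂ : M₂ ≤ M) (hr : r = 0 ∨ b ≤ 1)
    (hL : Lb 𝓕 q (cl q (xi : TY 𝓕) ^ (M + r)) ≠ 0) (n : ℕ)
    (hn : n = p ^ c * (M + (p - 1) * M₂) + r)
    (hne : NE (univ : Finset (EV (Fin n))) (fun S => ¬ Pool.Agent.H98R2.Nb.Has 𝓕 (toG S))) :
    False := by
  classical
  have hp : p.Prime := Fact.out
  have hqp : q.Prime := Fact.out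
  let F : Fin M → Type := fun i => GaloisField p (c + (if (i : ℕ) < M₂ then 1 else 0))
  have hfin : ∀ i, Fintype (F i) := fun i => Fintype.ofFinite _
  have hdec : ∀ i, DecidableEq (F i) := fun i => Classical.decEq _
  have hFcard : ∀ i, Nat.card (F i) = p ^ (c + (if (i : ℕ) < M₂ then 1 else 0)) := by
    intro i
    exact GaloisField.card p _ (by omega)
  have hFge : ∀ i, p ^ c ≤ Nat.card (F i) := by
    intro i
    rw [hFcard]
    exact Nat.pow_le_pow_right hp.pos (Nat.le_add_right _ _)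
  have hemb : ∀ i (m : ℕ), m ≤ p ^ c → Nonempty (Fin m ↪ F i) := by
    intro i m hm
    apply Function.Embedding.nonempty_of_card_le
    rw [Fintype.card_fin, ← Nat.card_eq_fintype_card]
    exact hm.trans (hFge i)
  have hcard : Fintype.card (Fin n) = Fintype.card (VS F (Fin r)) := by
    rw [Fintype.card_fin, Fintype.card_sum, Fintype.card_sigma, Fintype.card_fin]
    rw [hn, ← size_sum p c M M₂ hp.one_le hM₂]
    congr 1
    refine Finset.sum_congr rfl fun i _ => ?_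
    rw [← Nat.card_eq_fintype_card, hFcard]
  let E : Fin n ≃ VS F (Fin r) := Fintype.equivOfCardEq hcard
  have hNE2 := ne_map15 (ev15 E) _ _ hne
  rw [Finset.map_univ_equiv] at hNE2
  have hNE3 : NE (univ : Finset (EV (VS F (Fin r))))
      (fun S => ¬ Pool.Agent.H98R2.Nb.Has 𝓕 (toG S)) := by
    have h1 : (fun S : Finset (EV (VS F (Fin r))) => ¬ Pool.Agent.H98R2.Nb.Has 𝓕 (toG S)) =
        (fun S => ¬ Pool.Agent.H98R2.Nb.Has 𝓕 (toG (S.map (ev15 E).symm.toEmbedding))) := by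
      funext S
      have h1 : toG (S.map (ev15 E).symm.toEmbedding) = (toG S).map E.symm.toEmbedding :=
        toG_map15 E.symm S
      rw [h1]
      apply propext
      rw [not_iff_not]
      exact ⟨fun h => has_mono h ⟨(SimpleGraph.Iso.map E.symm (toG S)).toCopy⟩,
        fun h => has_mono h ⟨(SimpleGraph.Iso.map E.symm (toG S)).symm.toCopy⟩⟩
    rw [h1]
    exact hNE2
  have hcrit := crit (F := F) (R := Fin r) p q (Pool.Agent.H98R2.Nb.Has 𝓕)
    (fun G G' hGG' h => has_mono h (SimpleGraph.IsContained.of_le hGG'))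
    (fun s G h => has_mono h ⟨(SimpleGraph.Iso.map s G).symm.toCopy⟩)
    (by
      rintro ⟨H, hH, ⟨f⟩⟩
      apply h0 ⟨H, hH⟩
      refine ⟨SimpleGraph.Coloring.mk (fun _ => (0 : Fin 1)) ?_⟩
      intro u v huv
      exact (f.toHom.map_adj huv).elim)
    (by
      intro i G hG
      obtain ⟨φ⟩ := hemb i _ hF₁
      refine ⟨F₁.1, F₁.2, ⟨⟨⟨fun k => Sum.inl ⟨i, φ k⟩, ?_⟩, ?_⟩⟩⟩
      · intro a b hab
        exact hG _ _ (fun h => hab.ne (φ.injective h))
      · intro a b hab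
        have h1 : (Sum.inl (⟨i, φ a⟩ : Σ i : Fin M, F i) : VS F (Fin r)) = Sum.inl ⟨i, φ b⟩ := hab
        have h2 := Sum.inl_injective h1
        rw [Sigma.mk.injEq] at h2
        exact φ.injective (eq_of_heq h2.2))
    hNE3
  -- the blocks contain `b` vertices
  have hf : ∃ f : (Fin M ⊕ Fin r) × Fin b → VS F (Fin r),
      Function.Injective f ∧ ∀ z, bl (f z) = z.1 := by
    have φ : ∀ i, Fin b ↪ F i := fun i => Classical.choice (hemb i b hbc)
    rcases hr with hr | hb1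
    · subst hr
      refine ⟨fun z => match z.1 with
        | Sum.inl i => Sum.inl ⟨i, φ i z.2⟩
        | Sum.inr r => Sum.inr r, ?_, ?_⟩
      · rintro ⟨i | r, x⟩ ⟨i' | r', x'⟩ h
        · simp only [Sum.inl.injEq, Sigma.mk.injEq] at h
          obtain ⟨rfl, h⟩ := h
          have := (φ i).injective (eq_of_heq h)
          rw [this]
        · exact r'.elim0
        · exact r.elim0
        · exact r.elim0
      · rintro ⟨i | r, x⟩
        · rfl
        · exact r.elim0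
    · refine ⟨fun z => match z.1 with
        | Sum.inl i => Sum.inl ⟨i, φ i z.2⟩
        | Sum.inr r => Sum.inr r, ?_, ?_⟩
      · have hsub : ∀ x y : Fin b, x = y := by
          intro x y
          apply Fin.ext
          have := x.2
          have := y.2
          omega
        rintro ⟨i | r, x⟩ ⟨i' | r', x'⟩ h
        · simp only [Sum.inl.injEq, Sigma.mk.injEq] at h
          obtain ⟨rfl, h⟩ := h
          rw [hsub x x']
        · simp at h
        · simp at h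
        · simp only [Sum.inr.injEq] at h
          rw [h, hsub x x']
      · rintro ⟨i | r, x⟩ <;> rfl
  obtain ⟨f, hfi, hfb⟩ := hf
  have hQ : ∀ A : Finset (EV (Fin M ⊕ Fin r)),
      Pool.Agent.H98R2.Nb.Has 𝓕 (gS (F := F) A) ↔ ∃ H ∈ 𝓕, Nonempty (H.2 →g toG A) := by
    intro A
    constructor
    · rintro ⟨H, hH, ⟨g⟩⟩
      exact ⟨H, hH, ⟨⟨fun x => bl (g x), fun {x y} hxy => g.toHom.map_adj hxy⟩⟩⟩
    · rintro ⟨H, hH, ⟨κ⟩⟩
      exact has_of_hom hst (toG A) bl f hfi hfb H hH κ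
  have hcnt := count_xi (𝓕 := 𝓕) q (W := Fin M ⊕ Fin r)
    (fun A => Pool.Agent.H98R2.Nb.Has 𝓕 (gS (F := F) A)) hQ
  rw [(ZMod.intCast_zmod_eq_zero_iff_dvd _ q).2 hcrit, Fintype.card_sum, Fintype.card_fin,
    Fintype.card_fin] at hcnt
  exact hL hcnt.symm

end Pool.Agent.W5h82.Ev
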