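import Mathlib
import Pool.Agent.W5h82.Ev.Count
import Pool.Agent.W5h82.Ev.Arith

set_option autoImplicit false
set_option linter.unusedSectionVars false

/-!
Containing a member of a family of graphs: evasiveness for many numbers of vertices.
-/

namespace Pool.Agent.W5h82.Ev

open Finset Pool.Agent.H98R2.Ev Pool.Agent.TH410.KV Filter

/-- the evasiveness statement -/
def Evas {n : ℕ} (P : SimpleGraph (Fin n) → Prop) : Prop :=
  ∀ σ : Finset (Sym2 (Fin n)) → SimpleGraph (Fin n) → Sym2 (Fin n),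
    (∀ (Q : Finset (Sym2 (Fin n))) (G H : SimpleGraph (Fin n)),
        (∀ e ∈ Q, (e ∈ G.edgeSet ↔ e ∈ H.edgeSet)) → σ Q G = σ Q H) →
    ∃ G H : SimpleGraph (Fin n),
      (∀ e ∈ (fun Q : Finset (Sym2 (Fin n)) => insert (σ Q G) Q)^[n.choose 2 - 1]
            (∅ : Finset (Sym2 (Fin n))),
          (e ∈ G.edgeSet ↔ e ∈ H.edgeSet)) ∧ P G ∧ ¬ P H

variable {𝓕 : Pool.Agent.TH410.KV.Fam}

theorem h0_of (h0 : ∀ F ∈ 𝓕, F.2 ≠ ⊥) (F : 𝓕) : ¬ F.1.2.Colorable 1 := by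
  intro h
  apply h0 F.1 F.2
  obtain ⟨C⟩ := h
  ext x y
  simp only [SimpleGraph.bot_adj, iff_false]
  intro hxy
  exact C.valid hxy (Subsingleton.elim _ _)

theorem evas_of {n p : ℕ} (q : ℕ) [Fact q.Prime] (hp : p.Prime)
    (h0 : ∀ F ∈ 𝓕, F.2 ≠ ⊥) {b : ℕ} (hst : StableAt 𝓕 b)
    (hex : ∃ (c M M₂ r : ℕ), 1 ≤ c ∧ b ≤ p ^ c ∧ (∃ F' ∈ 𝓕, F'.1 ≤ p ^ c) ∧ M₂ ≤ M ∧
        (r = 0 ∨ b ≤ 1) ∧ Lb 𝓕 q (cl q (xi : TY 𝓕) ^ (M + r)) ≠ 0 ∧
        n = p ^ c * (M + (p - 1) * M₂) + r) (hn : 2 ≤ n) :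
    Evas (fun G : SimpleGraph (Fin n) => Pool.Agent.H98R2.Nb.Has 𝓕 G) := by
  intro σ hσ
  by_contra hbad
  have hNE := ne_of_strategy n hn (fun G => Pool.Agent.H98R2.Nb.Has 𝓕 G) σ hσ hbad
  obtain ⟨c, M, M₂, r, hc, hbc, ⟨F', hF', hF'c⟩, hM, hr, hL, hn'⟩ := hex
  have : Fact p.Prime := ⟨hp⟩
  exact no_ne (p := p) (h0_of h0) hst c hc hbc ⟨F', hF'⟩ hF'c M M₂ r hM hr hL n hn' hNE

/-- fixed prime power divisor -/
theorem evas_dvd (h0 : ∀ F ∈ 𝓕, F.2 ≠ ⊥) {b : ℕ} (hst : StableAt 𝓕 b) (e : ℕ)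
    (hcol : ∃ F ∈ 𝓕, F.2.Colorable (2 ^ 2 ^ e)) (p c : ℕ) (hp : p.Prime) (hc : 1 ≤ c)
    (hbc : b ≤ p ^ c) (hF : ∃ F ∈ 𝓕, F.1 ≤ p ^ c) (hcop : (p - 1).Coprime (2 ^ 2 ^ e - 1)) :
    ∃ n₀ : ℕ, ∀ n : ℕ, n₀ ≤ n → p ^ c ∣ n →
      Evas (fun G : SimpleGraph (Fin n) => Pool.Agent.H98R2.Nb.Has 𝓕 G) := by
  obtain ⟨F, hF1, hF2⟩ := hcol
  have hp1 : 1 ≤ p - 1 := by
    have := hp.two_le
    omega
  have hT : 1 ≤ 2 ^ 2 ^ e - 1 := by
    have h1 : 2 ^ 1 ≤ 2 ^ 2 ^ e := Nat.pow_le_pow_right (by norm_num) (Nat.one_le_pow _ _ (by norm_num))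
    omega
  set T := 2 ^ 2 ^ e - 1 with hTd
  refine ⟨p ^ c * (2 * ((p - 1) * T) + 1) + 2, fun n hn hdvd => ?_⟩
  obtain ⟨R, hR⟩ := hdvd
  have hRbig : 2 * ((p - 1) * T) + 1 ≤ R := by
    by_contra hcon
    push Not at hcon
    have h1 : p ^ c * R ≤ p ^ c * (2 * ((p - 1) * T) + 1) := Nat.mul_le_mul_left _ hcon.le
    omega
  obtain ⟨M, j₀, M₂, hM1, hM2, hM3⟩ := choose_M (p - 1) T 1 R hp1 hT hcop hRbig
  refine evas_of (p := p) 2 hp h0 hst
    ⟨c, M, M₂, 0, hc, hbc, hF, hM3, Or.inl rfl, ?_, ?_⟩ (by omega)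
  · rw [add_zero, Lb_xi_pow 2 (Or.inl rfl) (h0_of h0) ⟨F, hF1⟩ (2 ^ e) e hF2 le_rfl M (by omega)]
    · exact one_ne_zero
    · rw [hM1, ← hTd]
      have h2 : j₀ * T ≡ 0 [MOD T] := (Nat.modEq_zero_iff_dvd).2 (Dvd.intro_left _ rfl)
      simpa only [add_zero] using (Nat.ModEq.refl 1).add h2
  · rw [add_zero, ← hM2, ← hR]

/-- almost all numbers of vertices -/
theorem evas_density (hne : 𝓕.Nonempty) (h0 : ∀ F ∈ 𝓕, F.2 ≠ ⊥) {b : ℕ} (hst : StableAt 𝓕 b)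
    (A : ℕ → Prop) [DecidablePred A] (hA : ∀ n, A n →
      ¬ Evas (fun G : SimpleGraph (Fin n) => Pool.Agent.H98R2.Nb.Has 𝓕 G)) :
    Tendsto (fun N : ℕ => (((range N).filter A).card : ℝ) / N) atTop (nhds 0) := by
  obtain ⟨F, hF⟩ := hne
  set e := F.1 with he
  have hcol : F.2.Colorable (2 ^ 2 ^ e) := by
    have h1 : F.2.Colorable F.1 := by
      have := F.2.colorable_of_fintype
      rwa [Fintype.card_fin] at this
    refine h1.mono ?_
    have h2 : e < 2 ^ e := Nat.lt_two_pow_self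
    have h3 : 2 ^ e < 2 ^ 2 ^ e := Nat.lt_two_pow_self
    omega
  have hT : 1 ≤ 2 ^ 2 ^ e - 1 := by
    have h1 : 2 ^ 1 ≤ 2 ^ 2 ^ e := Nat.pow_le_pow_right (by norm_num) (Nat.one_le_pow _ _ (by norm_num))
    omega
  have hodd : Nat.Coprime 2 (2 ^ 2 ^ e - 1) := by
    rw [Nat.coprime_two_left, Nat.odd_sub (Nat.one_le_two_pow)]
    have h3 : Even (2 ^ 2 ^ e) := by
      rw [Nat.even_pow]
      exact ⟨even_two, pow_ne_zero _ two_ne_zero⟩
    constructor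
    · intro h
      exact absurd h3 (Nat.not_even_iff_odd.2 h)
    · intro h
      exact absurd h (by decide)
  have key := density_zero (2 ^ 2 ^ e - 1) 2 (max 2 (max b F.1)) hT hodd A ?_
  · convert key
  · intro p hp hm hmod
    have hp2 : 2 ≤ p := hp.two_le
    have hcop : (p - 1).Coprime (2 ^ 2 ^ e - 1) := by
      have h1 : p - 1 ≡ 1 [MOD (2 ^ 2 ^ e - 1)] := by
        have h2 : 1 + (p - 1) ≡ 1 + 1 [MOD (2 ^ 2 ^ e - 1)] := by
          have h3 : 1 + (p - 1) = p := by omega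
          rw [h3]
          exact hmod
        exact Nat.ModEq.add_left_cancel' 1 h2
      have h2 := h1.gcd_eq
      rw [Nat.gcd_one_left] at h2
      exact h2
    obtain ⟨n₀, hn₀⟩ := evas_dvd h0 hst e ⟨F, hF, hcol⟩ p 1 hp le_rfl
      (by rw [pow_one]; exact (le_max_left _ _).trans ((le_max_right _ _).trans hm))
      ⟨F, hF, by rw [pow_one]; exact (le_max_right _ _).trans ((le_max_right _ _).trans hm)⟩ hcop
    refine ⟨n₀, fun n hn hpn hAn => ?_⟩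
    exact hA n hAn (hn₀ n hn (by rwa [pow_one]))

theorem odd_or_three (B : ℕ) : ∃ n₀ : ℕ, ∀ n : ℕ, n₀ ≤ n → (Odd n ∨ 3 ∣ n) →
    ∃ p c t : ℕ, p.Prime ∧ 1 ≤ c ∧ B ≤ p ^ c ∧ n = p ^ c * t ∧ t % 6 ≠ 2 := by
  obtain ⟨n₀, hn₀⟩ := exists_primePow_dvd (3 * B + 9)
  refine ⟨n₀, fun n hn h => ?_⟩
  obtain ⟨p, c, hp, hc, hm, t, ht⟩ := hn₀ n hn
  rcases h with h | h
  · refine ⟨p, c, t, hp, hc, by omega, ht, ?_⟩
    rw [ht, Nat.odd_mul] at h
    have := Nat.odd_iff.1 h.2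
    omega
  · by_cases hp3 : p = 3
    · subst hp3
      have hc2 : 2 ≤ c := by
        by_contra hc2
        have : c = 1 := by omega
        subst this
        omega
      obtain ⟨c, rfl⟩ : ∃ c', c = c' + 1 := ⟨c - 1, by omega⟩
      refine ⟨3, c, 3 * t, hp, by omega, ?_, ?_, by omega⟩
      · rw [pow_succ] at hm
        omega
      · rw [ht, pow_succ]
        ring
    · have h3 : 3 ∣ t := by
        have h1 : Nat.Coprime 3 (p ^ c) := by
          apply Nat.Coprime.pow_right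
          exact (Nat.coprime_primes Nat.prime_three hp).2 (fun h => hp3 h.symm)
        rw [ht] at h
        exact h1.dvd_of_dvd_mul_left h
      refine ⟨p, c, t, hp, hc, by omega, ht, by omega⟩

/-- numbers of vertices which are odd or divisible by three, for 3-colourable members -/
theorem evas_three (h0 : ∀ F ∈ 𝓕, F.2 ≠ ⊥) {b : ℕ} (hst : StableAt 𝓕 b)
    (hcol : ∃ F ∈ 𝓕, F.2.Colorable 3) {n p c t : ℕ} (hp : p.Prime) (hc : 1 ≤ c)
    (hbc : b ≤ p ^ c) (hF : ∃ F ∈ 𝓕, F.1 ≤ p ^ c) (hn : n = p ^ c * t) (hn2 : 2 ≤ n)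
    (ht : t % 6 ≠ 2) :
    Evas (fun G : SimpleGraph (Fin n) => Pool.Agent.H98R2.Nb.Has 𝓕 G) := by
  obtain ⟨F, hF1, hF2⟩ := hcol
  have ht1 : 1 ≤ t := by
    rcases Nat.eq_zero_or_pos t with h | h
    · rw [h, mul_zero] at hn
      omega
    · exact h
  by_cases hbip : ∃ F ∈ 𝓕, F.2.Colorable 2
  · -- a bipartite member
    obtain ⟨F', hF', hF2'⟩ := hbip
    refine evas_of (p := p) 2 hp h0 hst
      ⟨c, t, 0, 0, hc, hbc, hF, Nat.zero_le _, Or.inl rfl, ?_, ?_⟩ hn2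
    · rw [add_zero, Lb_xi_pow 2 (Or.inl rfl) (h0_of h0) ⟨F', hF'⟩ 1 0 (by rwa [pow_one])
        (by norm_num) t ht1 (by norm_num [Nat.modEq_one])]
      exact one_ne_zero
    · rw [mul_zero, add_zero, add_zero, hn]
  · push Not at hbip
    have hbip' : ∀ F : 𝓕, ¬ F.1.2.Colorable 2 := fun F => hbip F.1 F.2
    by_cases hodd : t % 2 = 1
    · -- an odd number of blocks
      have : Fact (Nat.Prime 3) := ⟨Nat.prime_three⟩
      refine evas_of (p := p) 3 hp h0 hst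
        ⟨c, t, 0, 0, hc, hbc, hF, Nat.zero_le _, Or.inl rfl, ?_, ?_⟩ hn2
      · rw [add_zero, Lb_xi_pow 3 (Or.inr rfl) (h0_of h0) ⟨F, hF1⟩ 1 0 (by rwa [pow_one])
          (by norm_num) t ht1 (by
            have h1 : 3 ^ 3 ^ 0 - 1 = 2 := by norm_num
            rw [h1]
            exact hodd)]
        exact one_ne_zero
      · rw [mul_zero, add_zero, add_zero, hn]
    · refine evas_of (p := p) 2 hp h0 hst
        ⟨c, t, 0, 0, hc, hbc, hF, Nat.zero_le _, Or.inl rfl, ?_, ?_⟩ hn2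
      · rw [add_zero]
        have h43 : 2 ^ 2 ^ 1 - 1 = 3 := by norm_num
        by_cases h1 : t % 3 = 1
        · rw [Lb_xi_pow 2 (Or.inl rfl) (h0_of h0) ⟨F, hF1⟩ 2 1 (hF2.mono (by norm_num))
            (by norm_num) t ht1 (by rw [h43]; exact h1)]
          exact one_ne_zero
        · have h2 : t = 2 + 1 + (t / 3 - 1) * (2 ^ 2 ^ 1 - 1) := by
            rw [h43]
            omega
          rw [h2]
          exact Lb_xi_chrom_pow 2 (Or.inl rfl) 2 (by norm_num) ⟨F, hF1⟩ hF2 hbip' 2 1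
            (by norm_num) (by norm_num) _
      · rw [mul_zero, add_zero, add_zero, hn]

/-- all numbers of vertices, for families stable at `1` -/
theorem evas_all (h0 : ∀ F ∈ 𝓕, F.2 ≠ ⊥) (hst : StableAt 𝓕 1) (k : ℕ)
    (hcol : ∃ F ∈ 𝓕, F.2.Colorable k) (n : ℕ) (hn : 8 * k ^ 3 ≤ n) :
    Evas (fun G : SimpleGraph (Fin n) => Pool.Agent.H98R2.Nb.Has 𝓕 G) := by
  obtain ⟨F, hF, hFk⟩ := hcol
  have hk2 : 2 ≤ k := by
    by_contra hk
    have h1 : F.2.Colorable 1 := hFk.mono (by omega)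
    exact h0_of h0 ⟨F, hF⟩ h1
  -- a member with at most `k` vertices
  obtain ⟨F', hF', hF'k⟩ : ∃ F' ∈ 𝓕, F'.1 ≤ k := by
    obtain ⟨C⟩ := hFk
    have h1 : Pool.Agent.H98R2.Nb.Has 𝓕
        (Pool.Agent.H98R2.Nb.blow (⊤ : SimpleGraph (Fin k)) F.1) := by
      refine ⟨F, hF, ⟨⟨⟨fun x => (C x, x), fun {x y} hxy => ?_⟩, ?_⟩⟩⟩
      · simp only [SimpleGraph.comap_adj]
        exact C.map_adj hxy
      · intro x y hxy
        exact (Prod.ext_iff.1 hxy).2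
    obtain ⟨F', hF', ⟨f⟩⟩ := hst k F.1 ⊤ h1
    refine ⟨F', hF', ?_⟩
    have h2 := Fintype.card_le_of_injective _ f.injective
    simpa using h2
  -- the parameters
  set j := Nat.clog 2 k with hj
  have hj1 : k ≤ 2 ^ j := Nat.le_pow_clog (by norm_num) k
  have hj2 : 2 ^ (j - 1) < k := Nat.pow_pred_clog_lt_self (by norm_num) hk2
  have hjpos : 1 ≤ j := Nat.clog_pos (by norm_num) hk2
  have hj3 : 2 ^ j < 2 * k := by
    have h1 : 2 ^ j = 2 ^ (j - 1) * 2 := by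
      rw [← pow_succ]
      congr 1
      omega
    omega
  set e := Nat.clog 2 j with he
  have he1 : j ≤ 2 ^ e := Nat.le_pow_clog (by norm_num) j
  have he2 : 2 ^ e + 1 ≤ 2 * j := by
    rcases Nat.lt_or_ge 1 j with h | h
    · have h1 : 2 ^ (e - 1) < j := Nat.pow_pred_clog_lt_self (by norm_num) h
      have h2 : 1 ≤ e := Nat.clog_pos (by norm_num) h
      have h3 : 2 ^ e = 2 ^ (e - 1) * 2 := by
        rw [← pow_succ]
        congr 1
        omega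
      omega
    · have h1 : j = 1 := by omega
      rw [he, h1]
      simp
  set T := 2 ^ 2 ^ e - 1 with hTd
  have hT : 1 ≤ T := by
    have h1 : 2 ^ 1 ≤ 2 ^ 2 ^ e := Nat.pow_le_pow_right (by norm_num) (Nat.one_le_pow _ _ (by norm_num))
    omega
  have hT2 : T + 1 ≤ 2 * k ^ 2 := by
    have h1 : 2 ^ 2 ^ e ≤ 2 ^ (2 * j - 1) := Nat.pow_le_pow_right (by norm_num) (by omega)
    have h2 : 2 ^ (2 * j - 1) * 2 = 2 ^ j * 2 ^ j := by
      rw [← pow_succ, ← pow_add]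
      congr 1
      omega
    have h3 : 2 ^ j * 2 ^ j ≤ (2 * k) * (2 * k) := Nat.mul_le_mul hj3.le hj3.le
    have h4 : T + 1 = 2 ^ 2 ^ e := by omega
    rw [h4]
    nlinarith
  -- the exponent of the field blocks
  obtain ⟨c, hcj, hcj2, hcodd⟩ : ∃ c, j ≤ c ∧ c ≤ j + 1 ∧ Odd c := by
    rcases Nat.even_or_odd j with h | h
    · exact ⟨j + 1, Nat.le_succ _, le_rfl, h.add_one⟩
    · exact ⟨j, le_rfl, Nat.le_succ _, h⟩
  have hkc : k ≤ 2 ^ c := hj1.trans (Nat.pow_le_pow_right (by norm_num) hcj)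
  have hc4 : 2 ^ c ≤ 4 * k := by
    have h1 : 2 ^ c ≤ 2 ^ (j + 1) := Nat.pow_le_pow_right (by norm_num) hcj2
    rw [pow_succ] at h1
    omega
  have hcop : (2 ^ c - 1).Coprime T := by
    rw [Nat.Coprime, hTd, Nat.pow_sub_one_gcd_pow_sub_one]
    have h1 : c.gcd (2 ^ e) = 1 := by
      apply Nat.Coprime.pow_right
      rw [Nat.coprime_comm, Nat.coprime_two_left]
      exact hcodd
    rw [h1]
    norm_num
  have hbound : 2 ^ c * T + 2 ≤ n := by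
    have h1 : 2 ^ c * (T + 1) ≤ 4 * k * (2 * k ^ 2) := Nat.mul_le_mul hc4 hT2
    have h2 : 4 * k * (2 * k ^ 2) = 8 * k ^ 3 := by ring
    rw [mul_add, mul_one] at h1
    omega
  -- the number of blocks
  obtain ⟨M, hMT, hM⟩ : ∃ M < T, (2 ^ c - 1) * M ≡ n - 1 [MOD T] := by
    obtain ⟨k, hk1, hk2⟩ := Nat.chineseRemainder hcop 0 (n - 1)
    obtain ⟨M, hM⟩ := (Nat.modEq_zero_iff_dvd).1 hk1
    refine ⟨M % T, Nat.mod_lt _ hT, ?_⟩
    have h1 : (2 ^ c - 1) * (M % T) ≡ (2 ^ c - 1) * M [MOD T] :=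
      (Nat.ModEq.refl _).mul (Nat.mod_modEq M T)
    exact h1.trans (by rw [← hM]; exact hk2)
  have hMn : 2 ^ c * M + 2 ≤ n := by
    have h1 : 2 ^ c * M ≤ 2 ^ c * T := Nat.mul_le_mul_left _ hMT.le
    omega
  have hsplit : 2 ^ c * M = (2 ^ c - 1) * M + M := by
    have h1 : 2 ^ c = (2 ^ c - 1) + 1 := by
      have := Nat.one_le_two_pow (n := c)
      omega
    conv_lhs => rw [h1]
    ring
  refine evas_of (p := 2) 2 Nat.prime_two h0 hst
    ⟨c, M, 0, n - 2 ^ c * M, by omega,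
      Nat.one_le_two_pow, ⟨F', hF', hF'k.trans hkc⟩, Nat.zero_le _, Or.inr le_rfl, ?_, ?_⟩ (by omega)
  · rw [Lb_xi_pow 2 (Or.inl rfl) (h0_of h0) ⟨F, hF⟩ j e (hFk.mono hj1) he1 _ (by omega)]
    · exact one_ne_zero
    rw [← hTd]
    have h1 : M + (n - 2 ^ c * M) + (2 ^ c - 1) * M ≡ 1 + (2 ^ c - 1) * M [MOD T] := by
      have h2 : M + (n - 2 ^ c * M) + (2 ^ c - 1) * M = n := by omega
      rw [h2]
      have h3 : 1 + (2 ^ c - 1) * M ≡ 1 + (n - 1) [MOD T] := (Nat.ModEq.refl 1).add hM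
      have h4 : 1 + (n - 1) = n := by omega
      rw [h4] at h3
      exact h3.symm
    exact Nat.ModEq.add_right_cancel' _ h1
  · rw [mul_zero, add_zero]
    omega

end Pool.Agent.W5h82.Ev
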